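import Pool.Agent.H46.HT.Law

/-!
# Beilinson's conjecture on heights and central values: number fields with at most one exceptional prime
suffice

Let `X` be a projective variety over a number field `K` (in the problem `K = ℚ`; the base changes `X_F`
are again smooth projective varieties over `ℚ`), `m ≥ 1`. Let `S` be a finite set of primes of `K` (for
instance those of bad reduction of `X`), `X₀` a bound and `T` a finite extension of `K` (for instance a
field over which the cohomology modulo some `ℓ ≥ 3` is trivial, so that inertia acts unipotently).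

A number field `F ⊇ K` is special if for some prime number `p` it has a Galois extension `F'` which
contains `T` and has a `p`-hyperelementary Galois group, and all prime ideals `w` of `F` but at most ONE
are harmless: the norm of `w` is greater than `X₀`, and either `w` does not lie over `S` and is unramified
in `F'`, or the decomposition groups of `w` in `F'/F` are `p`-groups. We show:

(A) If for all special number fields `F ⊇ K` the space `CH^m(X_F)^0 ⊗ ℚ` is finite-dimensional and
`L(H^(2m-1)(X_F), s)` has a meromorphic continuation, the order of which at `s = m` is its dimension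
((i), (iii)), then this holds for `K` itself and for all number fields `F ⊇ K`.

(B) The same holds for (i) - (iv) together: finite dimension, nondegenerate height pairing, order, and
the leading coefficient up to `ℚ^*`.

Nothing is assumed over the other number fields, not even that the spaces of cycles are
finite-dimensional.

The field theoretic input is a relation with coefficient `1` (`Pool.Agent.H46.OP`): the trivial character
of the absolute Galois group of any number field is an integral linear combination of the permutation
characters of finitely many special fields. The laws for heights are those of `Pool.Agent.H39.Ht`.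
-/

set_option autoImplicit false

namespace Pool.Agent.Results.MP_29b22a_nt.OneBadPlace

open NumberField IsDedekindDomain Polynomial Pool.Agent.Q5.RG Pool.Agent.Q5.VL Pool.Agent.H39.Ht
open Pool.Agent.W353.EF (LFun)
open scoped Pointwise

/-- `p`-hyperelementary groups: a cyclic normal subgroup `C` of order prime to `p`, such that the
quotient by `C` is a `p`-group. -/
def Hyperelementary (p : ℕ) (G : Type) [Group G] : Prop :=
  ∃ C : Subgroup G, C.Normal ∧ IsCyclic C ∧ (Nat.card C).Coprime p ∧
    ∀ g : G, ∃ k : ℕ, g ^ p ^ k ∈ C

section fields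

variable {F : Type} [Field F] [NumberField F] (F' : Type) [Field F'] [NumberField F'] [Algebra F F']

/-- The inertia groups of the prime `w` of `F` in the Galois extension `F'` are trivial. -/
def Unramified (w : HeightOneSpectrum (𝓞 F)) : Prop :=
  ∀ W : HeightOneSpectrum (𝓞 F'), W.asIdeal.under (𝓞 F) = w.asIdeal →
    ∀ σ : Gal(F'/F), (∀ x : 𝓞 F', σ • x - x ∈ W.asIdeal) → σ = 1

/-- The decomposition groups of the prime `w` of `F` in the Galois extension `F'` are `p`-groups. -/
def DecomposesInPGroup (p : ℕ) (w : HeightOneSpectrum (𝓞 F)) : Prop :=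
  ∀ W : HeightOneSpectrum (𝓞 F'), W.asIdeal.under (𝓞 F) = w.asIdeal →
    ∀ σ : Gal(F'/F), σ • W.asIdeal = W.asIdeal → ∃ k : ℕ, σ ^ p ^ k = 1

/-- The prime `w` of `F ⊇ K` lies over the set `S` of primes of `K`. -/
def LiesOver {K : Type} [Field K] [NumberField K] [Algebra K F] (S : Set (HeightOneSpectrum (𝓞 K)))
    (w : HeightOneSpectrum (𝓞 F)) : Prop :=
  ∃ v ∈ S, w.asIdeal.under (𝓞 K) = v.asIdeal

/-- The prime `w` of `F` is exceptional: its norm is at most `X`, or its decomposition groups in `F'` are
not `p`-groups and it lies over `S` or ramifies in `F'`. -/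
def Exceptional {K : Type} [Field K] [NumberField K] [Algebra K F] (S : Set (HeightOneSpectrum (𝓞 K)))
    (X p : ℕ) (w : HeightOneSpectrum (𝓞 F)) : Prop :=
  Ideal.absNorm w.asIdeal ≤ X ∨ ((¬ Unramified F' w ∨ LiesOver S w) ∧ ¬ DecomposesInPGroup F' p w)

end fields

/-- Special number fields `F ⊇ K`, for a set `S` of primes of `K`, a bound `X` and an extension `T` of
`K`: for some prime number `p` there is a Galois extension `F'` of `F` with a `p`-hyperelementary group
which contains `T`, such that at most one prime of `F` is exceptional. -/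
def Special {K : Type} [Field K] [NumberField K] (S : Set (HeightOneSpectrum (𝓞 K))) (X : ℕ)
    (T : Type) [Field T] [Algebra K T] (F : Type) [Field F] [NumberField F] [Algebra K F] : Prop :=
  ∃ p : ℕ, p.Prime ∧ ∃ (F' : Type) (_ : Field F') (_ : NumberField F') (_ : Algebra F F'),
    IsGalois F F' ∧ Hyperelementary p Gal(F'/F) ∧
    (∃ j : T →+* F', ∀ x : K, j (algebraMap K T x) = algebraMap F F' (algebraMap K F x)) ∧
    ∀ w w' : HeightOneSpectrum (𝓞 F),
      Exceptional F' S X p w → Exceptional F' S X p w' → w = w'

/-- (i), (iii) and (H1) for `X_F`: the space `V_F` of the elements of `V` that are fixed by the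
absolute Galois group of `F` has finite dimension `p`, and for all choices of the bad Euler factors
(without a pole at `s = m`), `L(H^(2m-1)(X_F), s)` has a meromorphic continuation to `Ω`, of order `p` at
`s = m`. -/
def Ranks {K : Type} [Field K] [NumberField K] {n : ℕ} (X : Set (MvPolynomial (Fin n) (𝓞 K)))
    (d m N : ℕ) (Ω : Set ℂ) (V : GVec ℚ Gal(AlgebraicClosure K/K)) (F : Type) [Field F]
    [NumberField F] [Algebra K F] : Prop :=
  ∃ (e : F →ₐ[K] AlgebraicClosure K) (p : ℕ) (a : Fin p → V.car), V.IsBasis (stabE e) a ∧
    ∀ B : HeightOneSpectrum (𝓞 F) → ℂ[X], ES X d (2 * m - 1) N ((m : ℤ) : ℂ) B →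
      ∃ f : ℂ → ℂ, MeromorphicOn f Ω ∧ (∃ b : ℝ, ∀ s : ℂ, b < s.re → f s = LFun B s) ∧
        meromorphicOrderAt f ((m : ℤ) : ℂ) = ((p : ℕ) : WithTop ℤ)

/-- (i) - (iv) and (H1) for `X_F`: the spaces of cycles are finite-dimensional, the height pairing and
the period matrix have nonzero determinants in rational bases (`Heights.Reg`), and for all choices of the
bad Euler factors, `L(H^(2m-1)(X_F), s)` has a meromorphic continuation to `Ω`; its order at `s = m` is
the dimension of `CH^m(X_F)^0 ⊗ ℚ`, and its leading coefficient a rational multiple of the product of the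
determinants. -/
def Beilinson {K : Type} [Field K] [NumberField K] {n : ℕ} (X : Set (MvPolynomial (Fin n) (𝓞 K)))
    (d m N : ℕ) (Ω : Set ℂ) (M : Heights Gal(AlgebraicClosure K/K)) (F : Type) [Field F]
    [NumberField F] [Algebra K F] : Prop :=
  (∃ p c, M.Reg F p c) ∧
    ∀ B : HeightOneSpectrum (𝓞 F) → ℚ[X], Sys X d (2 * m - 1) N m F B →
      ∃ f : ℂ → ℂ, MeromorphicOn f Ω ∧ (∃ b : ℝ, ∀ s : ℂ, b < s.re → f s = LFun (mp B) s) ∧
        ∀ p c, M.Reg F p c → meromorphicOrderAt f ((m : ℤ) : ℂ) = ((p : ℕ) : WithTop ℤ) ∧
          ∃ q : ℚ, q ≠ 0 ∧ meromorphicTrailingCoeffAt f ((m : ℤ) : ℂ) = q * (c : ℂ)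

/-- **Fields with at most one exceptional prime suffice.** -/
theorem result (K : Type) [Field K] [NumberField K] (n : ℕ) (X : Set (MvPolynomial (Fin n) (𝓞 K)))
    (d m N : ℕ) (_ : 1 ≤ m) (_ : 2 * m - 1 ≤ 2 * d) (Ω : Set ℂ) (_ : IsDom Ω ((m : ℤ) : ℂ))
    (S : Set (HeightOneSpectrum (𝓞 K))) (_ : S.Finite) (X₀ : ℕ)
    (T : Type) [Field T] [NumberField T] [Algebra K T] :
    -- (A)
    (∀ V : GVec ℚ Gal(AlgebraicClosure K/K),
      (∀ (F : Type) [Field F] [NumberField F] [Algebra K F], Special S X₀ T F →
        Ranks X d m N Ω V F) →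
      ∀ (F : Type) [Field F] [NumberField F] [Algebra K F], Ranks X d m N Ω V F) ∧
    -- (B)
    ((∀ (F : Type) [Field F] [NumberField F] [Algebra K F], ∃ B, Sys X d (2 * m - 1) N m F B) →
      ∀ M : Heights Gal(AlgebraicClosure K/K), M.Good →
      (∀ (F : Type) [Field F] [NumberField F] [Algebra K F], Special S X₀ T F →
        Beilinson X d m N Ω M F) →
      ∀ (F : Type) [Field F] [NumberField F] [Algebra K F], Beilinson X d m N Ω M F) := by
  rename_i hm hd hΩ hS _ _ _
  have hC := Pool.Agent.H46.OP.suffices_special K S hS X₀ T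
  constructor
  · intro V h F _ _ _
    refine Pool.Agent.H46.HT.rank_all_suff (V := V) hC hd hΩ ?_ (fun F' _ _ _ hr => h F' hr) F
    have h1 : ((2 * m - 1 : ℕ) : ℝ) = 2 * m - 1 := by
      rw [Nat.cast_sub (by omega)]
      push_cast
      ring
    rw [h1]
    push_cast
    linarith
  · intro hsys M hM h F _ _ _
    exact Pool.Agent.H46.HT.height_all_suff hC hd hΩ hsys hM (fun F' _ _ _ hr => h F' hr) F

end Pool.Agent.Results.MP_29b22a_nt.OneBadPlace
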