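import Pool.Agent.H39.HP.Main

/-!
# Beilinson's conjecture on heights and central values: three primitive fields suffice

Let `X` be a projective variety over a number field `K` (in the problem `K = ℚ`; the base changes `X_F`
are again smooth projective varieties over `ℚ`), `m ≥ 1`.

For an odd number `r` and a permutation `g` of `2r` points let `s_k(g)` be the number of the
`g`-invariant sets of `k` points and `p(g)` the number of the `g`-invariant partitions into two blocks
of `r` points. Then `1 = p(g) + s_1(g) - s_2(g) + ⋯ - s_{r-1}(g)`, and the stabilizers of the `k`-sets and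
of these partitions are maximal subgroups of the symmetric group. For every `r`, every `K` and every finite
set `S` of primes of `K` there is a Galois extension `L / K` with group `S_{2r}` in which the primes in `S`
and the real places split completely (the relation of fields is the one of our
`MP_0d9be2_nt.PrimitiveFields`). We show that for all varieties `X` over `K` and all `m` the conjecture for
`X` itself is decided by its base changes to the `r` fields `F_k ⊆ L`, which have no subfields between `K` and
`F_k`: for `r = 3` by three fields, of degrees `10`, `6` and `15`: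

(A) if `CH^m(X_L)^0 ⊗ ℚ` is finite-dimensional and (i), (iii) hold over the `F_k` (the order of
`L(H^(2m-1)(X_F), s)` at `s = m` is the dimension of `CH^m(X_F)^0 ⊗ ℚ`), then over `K`;

(B) if over `L` the height pairing and the period matrix are nondegenerate and (i) - (iv) hold over the
`F_k`, then over `K`: also the leading coefficient is a rational multiple of the determinants.

And if the statements hold over all such primitive extensions `F'` of all number fields `F ⊇ K`, then they
hold over all number fields `F ⊇ K`; here nothing is assumed over the other fields, not even that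
the spaces of cycles are finite-dimensional.
-/

set_option autoImplicit false

namespace Pool.Agent.Results.MP_29b22a_nt.PrimitiveFields

open NumberField IsDedekindDomain Polynomial Pool.Agent.Q5.RG Pool.Agent.Q5.VL Pool.Agent.H39.Ht
open Pool.Agent.H67.Primitive
open Pool.Agent.W353.EF (LFun)

/-- The space `V_L` of the elements of `V` that are fixed by the absolute Galois group of `L` has finite
dimension. -/
def FiniteOver {K : Type} [Field K] [NumberField K] (V : GVec ℚ Gal(AlgebraicClosure K/K))
    (L : Type) [Field L] [NumberField L] [Algebra K L] : Prop :=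
  ∃ (e : L →ₐ[K] AlgebraicClosure K) (p : ℕ) (a : Fin p → V.car), V.IsBasis (stabE e) a

/-- (i), (iii) and (H1) for `X_F`: the space `V_F` of the elements of `V` that are fixed by the
absolute Galois group of `F` has finite dimension `p`, and for all choices of the bad Euler factors
(without a pole at `s = m`), `L(H^(2m-1)(X_F), s)` has a meromorphic continuation to `Ω`, of order `p` at
`s = m`. -/
def Ranks {K : Type} [Field K] [NumberField K] {n : ℕ} (X : Set (MvPolynomial (Fin n) (𝓞 K)))
    (d m N : ℕ) (Ω : Set ℂ) (V : GVec ℚ Gal(AlgebraicClosure K/K)) (F : Type) [Field F]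
    [NumberField F] [Algebra K F] : Prop :=
  ∃ (e : F →ₐ[K] AlgebraicClosure K) (p : ℕ) (a : Fin p → V.car), V.IsBasis (stabE e) a ∧
    ∀ B : HeightOneSpectrum (𝓞 F) → ℂ[X], ES X d (2 * m - 1) N ((m : ℤ) : ℂ) B →
      ∃ f : ℂ → ℂ, MeromorphicOn f Ω ∧ (∃ b : ℝ, ∀ s : ℂ, b < s.re → f s = LFun B s) ∧
        meromorphicOrderAt f ((m : ℤ) : ℂ) = ((p : ℕ) : WithTop ℤ)

/-- (i) - (iv) and (H1) for `X_F`: the spaces of cycles are finite-dimensional, the height pairing and
the period matrix have nonzero determinants in rational bases (`Heights.Reg`), and for all choices of the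
bad Euler factors, `L(H^(2m-1)(X_F), s)` has a meromorphic continuation to `Ω`; its order at `s = m` is
the dimension of `CH^m(X_F)^0 ⊗ ℚ`, and its leading coefficient a rational multiple of the product of the
determinants. -/
def Beilinson {K : Type} [Field K] [NumberField K] {n : ℕ} (X : Set (MvPolynomial (Fin n) (𝓞 K)))
    (d m N : ℕ) (Ω : Set ℂ) (M : Heights Gal(AlgebraicClosure K/K)) (F : Type) [Field F]
    [NumberField F] [Algebra K F] : Prop :=
  (∃ p c, M.Reg F p c) ∧
    ∀ B : HeightOneSpectrum (𝓞 F) → ℚ[X], Sys X d (2 * m - 1) N m F B →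
      ∃ f : ℂ → ℂ, MeromorphicOn f Ω ∧ (∃ b : ℝ, ∀ s : ℂ, b < s.re → f s = LFun (mp B) s) ∧
        ∀ p c, M.Reg F p c → meromorphicOrderAt f ((m : ℤ) : ℂ) = ((p : ℕ) : WithTop ℤ) ∧
          ∃ q : ℚ, q ≠ 0 ∧ meromorphicTrailingCoeffAt f ((m : ℤ) : ℂ) = q * (c : ℂ)

/-- **Primitive fields suffice.** Let `r ≥ 3` be odd.

1. For every number field `K` and every finite set `S` of primes of `K` there are a Galois extension
`L / K` with group `S_{2r}` and `r` different intermediate fields `F_k` of degrees
`(2r choose r) / 2` (`k = 0`) and `(2r choose k)` (`1 ≤ k < r`), without fields strictly between `K` and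
`F_k`, in which the primes in `S` and the real places of `K` split completely, with these properties for
ALL `X / K` and `m`: (A) if `V_L` is finite-dimensional and `Ranks` holds over the `F_k`, then over `K`;
(B) if the determinants over `L` are not zero and `Beilinson` holds over the `F_k`, then over `K`.

2. Let `X / K` and `m` be given, and a finite set `S F` of primes of `F` for all number fields `F ⊇ K`.
If `Ranks` (`Beilinson`) holds over all number fields `F'` which are special extensions (for `S F`) of a
number field `F` with `K ⊆ F ⊆ F'`, then it holds over all number fields `F ⊇ K`. -/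
theorem result (K : Type) [Field K] [NumberField K] (r : ℕ) (hr : Odd r) (h3 : 3 ≤ r) :
    -- (1) one extension with symmetric group
    (∀ S : Finset (HeightOneSpectrum (𝓞 K)),
      ∃ (L : Type) (_ : Field L) (_ : NumberField L) (_ : Algebra K L)
        (F : Fin r → IntermediateField K L), PrimitiveRelation r S F ∧
        ∀ (n : ℕ) (X : Set (MvPolynomial (Fin n) (𝓞 K))) (d m N : ℕ) (_ : 1 ≤ m)
          (_ : 2 * m - 1 ≤ 2 * d) (Ω : Set ℂ) (_ : IsDom Ω ((m : ℤ) : ℂ)),
          -- (A)
          (∀ V : GVec ℚ Gal(AlgebraicClosure K/K), FiniteOver V L →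
            (∀ k, Ranks X d m N Ω V (F k)) → Ranks X d m N Ω V K) ∧
          -- (B)
          ((∀ (F : Type) [Field F] [NumberField F] [Algebra K F], ∃ B, Sys X d (2 * m - 1) N m F B) →
            ∀ M : Heights Gal(AlgebraicClosure K/K), M.Good → (∃ p c, M.Reg L p c) →
            (∀ k, Beilinson X d m N Ω M (F k)) → Beilinson X d m N Ω M K)) ∧
    -- (2) all extensions
    ∀ (n : ℕ) (X : Set (MvPolynomial (Fin n) (𝓞 K))) (d m N : ℕ) (_ : 1 ≤ m)
      (_ : 2 * m - 1 ≤ 2 * d) (Ω : Set ℂ) (_ : IsDom Ω ((m : ℤ) : ℂ))
      (S : ∀ (F : Type) [Field F] [NumberField F] [Algebra K F], Finset (HeightOneSpectrum (𝓞 F))),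
      -- (A)
      (∀ V : GVec ℚ Gal(AlgebraicClosure K/K),
        (∀ (F F' : Type) [Field F] [NumberField F] [Algebra K F] [Field F'] [NumberField F']
          [Algebra K F'] [Algebra F F'] [IsScalarTower K F F'], SpecialExtension r (S F) F' →
            Ranks X d m N Ω V F') →
        ∀ (F : Type) [Field F] [NumberField F] [Algebra K F], Ranks X d m N Ω V F) ∧
      -- (B)
      ((∀ (F : Type) [Field F] [NumberField F] [Algebra K F], ∃ B, Sys X d (2 * m - 1) N m F B) →
        ∀ M : Heights Gal(AlgebraicClosure K/K), M.Good →
        (∀ (F F' : Type) [Field F] [NumberField F] [Algebra K F] [Field F'] [NumberField F']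
          [Algebra K F'] [Algebra F F'] [IsScalarTower K F F'], SpecialExtension r (S F) F' →
            Beilinson X d m N Ω M F') →
        ∀ (F : Type) [Field F] [NumberField F] [Algebra K F], Beilinson X d m N Ω M F) := by
  have hreal : ∀ m : ℕ, 1 ≤ m → (((2 * m - 1 : ℕ) : ℕ) : ℝ) / 2 < ((m : ℤ) : ℝ) := by
    intro m hm
    have h1 : ((2 * m - 1 : ℕ) : ℝ) = 2 * m - 1 := by
      rw [Nat.cast_sub (by omega)]
      push_cast
      ring
    rw [h1]
    push_cast
    linarith
  refine ⟨fun S => ?_, ?_⟩
  · obtain ⟨L, _, _, _, F, hF⟩ := exists_primitive_relation K hr h3 S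
    refine ⟨L, inferInstance, inferInstance, inferInstance, F, hF, ?_⟩
    intro n X d m N hm hd Ω hΩ
    constructor
    · rintro V ⟨e, p, a, ha⟩ h
      obtain ⟨a', -⟩ := GVec.exists_basis ha
      exact Pool.Agent.H39.HP.rank_base hF hd hΩ (hreal m hm) ⟨e, Module.Finite.of_basis a'⟩ h
    · intro hsys M hM hL h
      exact Pool.Agent.H39.HP.height_base hF hd hΩ hsys hM hL h
  · intro n X d m N hm hd Ω hΩ S
    have hC := Pool.Agent.H39.HP.suffices_primitive K hr h3 S
    constructor
    · intro V h F _ _ _
      exact Pool.Agent.H46.HT.rank_all_suff (V := V) hC hd hΩ (hreal m hm)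
        (fun F' _ _ _ ⟨F1, _, _, _, _, _, hs⟩ => h F1 F' hs) F
    · intro hsys M hM h F _ _ _
      exact Pool.Agent.H46.HT.height_all_suff hC hd hΩ hsys hM
        (fun F' _ _ _ ⟨F1, _, _, _, _, _, hs⟩ => h F1 F' hs) F

end Pool.Agent.Results.MP_29b22a_nt.PrimitiveFields
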