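import Pool.Agent.H39.Ht.Law

/-!
# Beilinson's conjecture on heights and central values: number fields without automorphisms and with at
most one small prime suffice

Let `X` be a projective variety over a number field `K` (in the problem `K = ℚ`; the base changes `X_F`
are again smooth projective varieties over `ℚ`), `m ≥ 1`, and fix any bound `X₀`. We show:

(A) If for all number fields `F ⊇ K` which have no automorphism but the identity AND at most one prime
ideal of norm `≤ X₀` the space `CH^m(X_F)^0 ⊗ ℚ` is finite-dimensional and `L(H^(2m-1)(X_F), s)` has a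
meromorphic continuation, the order of which at `s = m` is its dimension ((i), (iii)), then this holds for
`K` itself and for all number fields `F ⊇ K`.

(B) The same holds for (i) - (iv) together: finite dimension, nondegenerate height pairing, order, and
the leading coefficient up to `ℚ^*`.

Nothing is assumed over the other number fields, not even that the spaces of cycles are
finite-dimensional.

The field theoretic input is the relation of `Pool.Agent.H26.K4`: the trivial character of the absolute
Galois group of any number field is an integral linear combination of the permutation characters of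
finitely many fields as above. New here is that the height pairing is made to fit into the laws for
regulators (`Pool.Agent.H39.Ht`): the invariant functionals on `CH^(n+1-m)(X)^0 ⊗ ℚ` under an open subgroup
are the dual of the invariants, and the pairing with values in this dual is one block of a regulator, the
other block of which is the period matrix.
-/

set_option autoImplicit false

namespace Pool.Agent.Results.MP_29b22a_nt.RigidOneSmallPrime

open NumberField IsDedekindDomain Polynomial Pool.Agent.Q5.RG Pool.Agent.Q5.VL Pool.Agent.H39.Ht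
open Pool.Agent.W353.EF (LFun)

/-- The identity is the only automorphism of the field `F`. -/
def NoAutomorphisms (F : Type) [Field F] : Prop :=
  ∀ (τ : F ≃+* F) (x : F), τ x = x

/-- The number field `F` has at most one prime ideal of norm `≤ X₀`. -/
def AtMostOneSmallPrime (X₀ : ℕ) (F : Type) [Field F] [NumberField F] : Prop :=
  ∀ w w' : HeightOneSpectrum (𝓞 F),
    Ideal.absNorm w.asIdeal ≤ X₀ → Ideal.absNorm w'.asIdeal ≤ X₀ → w = w'

/-- (i), (iii) and (H1) for `X_F`: the space `V_F` of the elements of `V` that are fixed by the
absolute Galois group of `F` has finite dimension `p`, and for all choices of the bad Euler factors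
(without a pole at `s = m`), `L(H^(2m-1)(X_F), s)` has a meromorphic continuation to `Ω`, of order `p` at
`s = m`. -/
def Ranks {K : Type} [Field K] [NumberField K] {n : ℕ} (X : Set (MvPolynomial (Fin n) (𝓞 K)))
    (d m N : ℕ) (Ω : Set ℂ) (V : GVec ℚ Gal(AlgebraicClosure K/K)) (F : Type) [Field F]
    [NumberField F] [Algebra K F] : Prop :=
  ∃ (e : F →ₐ[K] AlgebraicClosure K) (p : ℕ) (a : Fin p → V.car), V.IsBasis (stabE e) a ∧
    ∀ B : HeightOneSpectrum (𝓞 F) → ℂ[X], ES X d (2 * m - 1) N ((m : ℤ) : ℂ) B →
      ∃ f : ℂ → ℂ, MeromorphicOn f Ω ∧ (∃ b : ℝ, ∀ s : ℂ, b < s.re → f s = LFun B s) ∧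
        meromorphicOrderAt f ((m : ℤ) : ℂ) = ((p : ℕ) : WithTop ℤ)

/-- (i) - (iv) and (H1) for `X_F`: the spaces of cycles are finite-dimensional, the height pairing and
the period matrix have nonzero determinants in rational bases (`Heights.Reg`), and for all choices of the
bad Euler factors, `L(H^(2m-1)(X_F), s)` has a meromorphic continuation to `Ω`; its order at `s = m` is
the dimension of `CH^m(X_F)^0 ⊗ ℚ`, and its leading coefficient a rational multiple of the product of the
determinants. -/
def Beilinson {K : Type} [Field K] [NumberField K] {n : ℕ} (X : Set (MvPolynomial (Fin n) (𝓞 K)))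
    (d m N : ℕ) (Ω : Set ℂ) (M : Heights Gal(AlgebraicClosure K/K)) (F : Type) [Field F]
    [NumberField F] [Algebra K F] : Prop :=
  (∃ p c, M.Reg F p c) ∧
    ∀ B : HeightOneSpectrum (𝓞 F) → ℚ[X], Sys X d (2 * m - 1) N m F B →
      ∃ f : ℂ → ℂ, MeromorphicOn f Ω ∧ (∃ b : ℝ, ∀ s : ℂ, b < s.re → f s = LFun (mp B) s) ∧
        ∀ p c, M.Reg F p c → meromorphicOrderAt f ((m : ℤ) : ℂ) = ((p : ℕ) : WithTop ℤ) ∧
          ∃ q : ℚ, q ≠ 0 ∧ meromorphicTrailingCoeffAt f ((m : ℤ) : ℂ) = q * (c : ℂ)

theorem result (K : Type) [Field K] [NumberField K] (n : ℕ) (X : Set (MvPolynomial (Fin n) (𝓞 K)))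
    (d m N : ℕ) (_ : 1 ≤ m) (_ : 2 * m - 1 ≤ 2 * d) (Ω : Set ℂ) (_ : IsDom Ω ((m : ℤ) : ℂ)) (X₀ : ℕ) :
    -- (A)
    (∀ V : GVec ℚ Gal(AlgebraicClosure K/K),
      (∀ (F : Type) [Field F] [NumberField F] [Algebra K F], NoAutomorphisms F →
        AtMostOneSmallPrime X₀ F → Ranks X d m N Ω V F) →
      ∀ (F : Type) [Field F] [NumberField F] [Algebra K F], Ranks X d m N Ω V F) ∧
    -- (B)
    ((∀ (F : Type) [Field F] [NumberField F] [Algebra K F], ∃ B, Sys X d (2 * m - 1) N m F B) →
      ∀ M : Heights Gal(AlgebraicClosure K/K), M.Good →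
      (∀ (F : Type) [Field F] [NumberField F] [Algebra K F], NoAutomorphisms F →
        AtMostOneSmallPrime X₀ F → Beilinson X d m N Ω M F) →
      ∀ (F : Type) [Field F] [NumberField F] [Algebra K F], Beilinson X d m N Ω M F) := by
  rename_i hm hd hΩ
  constructor
  · intro V h F _ _ _
    refine rank_all (V := V) hd hΩ ?_ X₀ (fun F' _ _ _ hr hs => h F' hr hs) F
    have h1 : ((2 * m - 1 : ℕ) : ℝ) = 2 * m - 1 := by
      rw [Nat.cast_sub (by omega)]
      push_cast
      ring
    rw [h1]
    push_cast
    linarith
  · intro hsys M hM h F _ _ _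
    exact height_all hd hΩ hsys hM X₀ (fun F' _ _ _ hr hs => h F' hr hs) F

end Pool.Agent.Results.MP_29b22a_nt.RigidOneSmallPrime
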