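import Pool.Agent.H21.RE.Abs
import Pool.Agent.H21.RD.Var

/-!
# Central Euler products of several motives `H^{2m-1}(X)` and one asymptotic law

Let `X_i`, `i ∈ ι`, be finitely many smooth projective varieties of dimensions `d_i` over number fields
`K_i` (for example `K_i = ℚ`), given by homogeneous polynomials over `𝓞 K_i`, let `1 ≤ m_i`,
`2 m_i - 1 ≤ 2 d_i`, and let `α_{i,v,j}`, `v ∉ S_i`, be the eigenvalues of the Frobenius on
`H^{2 m_i - 1}(X_i)`, given by the numbers of points of `X_i` over finite fields. Let `F_i` be a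
continuation of the incomplete `L`-function `∏_{v ∉ S_i} ∏_j (1 - α_{i,v,j} q_v^{-s})⁻¹`, holomorphic for
`Re s > m_i` and at `s = m_i`, let `r_i` be its order and `c_i` its leading coefficient at `m_i`, and let

`P*_i(x) = exp (- ∑_{v ∉ S_i, q_v^k ≤ x} tr (Frob_v^k | H^{2 m_i - 1}(X_i)) / (k q_v^{k m_i}))`.

For REAL weights `w_i` of any signs let `Q(x) = ∏ P*_i(x)^(w_i)`, `T = ∏ (e^(γ r_i)/|c_i|)^(w_i)`,
`ρ = ∑ w_i r_i` and `m(z) = ∑ w_i ord_{s = m_i + z} F_i` (the zeros of the different `L`-functions may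
cancel). Without any hypothesis on the growth of the `F_i`:

1. `Q(x) / (log x)^κ → C ≠ 0` implies `κ = ρ`, `C = T`, and `m(z) = 0` for `Re z > 0`.
2. The following are equivalent: `Q(x) / (log x)^κ → C` for some `κ` and `C ≠ 0`; `Q(x) / (log x)^ρ → T`;
   `m ≥ 0` on the real half-line `z > 0` and `Q` oscillates slowly from above, that is
   `Q(y) ≤ (1 + ε) Q(x)` for `x ≤ y ≤ x^(1+δ)`; the same with the opposite signs.
3. The analogous equivalences for the order of magnitude `(log x)^κ`, with `Q(y) ≤ K Q(x)` for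
   `x ≤ y ≤ x²`.
4. If `m ≥ 0` on the real half-line `z > 0` and `Q(x) ≤ C (log x)^κ` for large `x`, then `m(z) = 0` for
   `Re z > 0`, `ρ ≤ κ`, and `T ≤ C` in the case of equality.
5. If the `w_i` are linearly independent over `ℚ`, `v_i` are natural numbers and
   `Q(x) / (log x)^(∑ w_i v_i) → C ≠ 0`, then for ALL `i` the order `r_i` is `v_i` and `F_i` has no zeros
   with `Re s > m_i`.
6. Let `v_i` be natural numbers and `R_i > 0` (in the application `v_i = dim V^{m_i}(X_i)` and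
   `R_i = |det Π · det ⟨ , ⟩|`), let the `w_i` be integers and let
   `q ∏ (R_i P*_i(x) / (e^γ log x)^(v_i))^(w_i) → 1` for a positive rational number `q`. Then
   `∑ w_i r_i = ∑ w_i v_i`, `∏ (|c_i|/R_i)^(w_i) = q` and `m(z) = 0` for `Re z > 0`. If `w_j = ± 1`, then
   the statement `r_i = v_i` and `|c_i| ∈ ℚ R_i` (parts (iii) and (iv) of the conjecture of Beilinson)
   for all `i ≠ j` with `w_i ≠ 0` implies that for `j`.
7. In particular, for two varieties `X_i`, `X_j` the relation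
   `q (R_i P*_i(x) / (e^γ log x)^(v_i)) / (R_j P*_j(x) / (e^γ log x)^(v_j)) → 1` shows that this statement
   is true for `X_i` if and only if it is true for `X_j`, and that `F_i(m_i + z)` and `F_j(m_j + z)` have
   the same zeros with `Re z > 0`, with the same multiplicities.

For one variety see `LeadingCoefficientCriterion`, `OneSequenceOfWindows` (library).
-/

set_option autoImplicit false

namespace Pool.Agent.Results.MP_29b22a_nt.SeveralMotives

open Filter Topology NumberField IsDedekindDomain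

section defs

variable {n : ℕ}

/-- The set `X` of homogeneous polynomials over a ring `R` in `n` variables defines a projective
scheme over `R`.  For a field `κ` with `q` elements and a homomorphism `R → κ` this is `(q - 1)`
times the number of the points of `X` with coordinates in `κ`: the number of the nonzero solutions
of the equations. -/
noncomputable def cone {R : Type} [CommRing R] (X : Set (MvPolynomial (Fin n) R)) {κ : Type}
    [Field κ] (φ : R →+* κ) : ℕ :=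
  Nat.card {u : Fin n → κ // u ≠ 0 ∧ ∀ f ∈ X, MvPolynomial.eval₂ φ u f = 0}

variable {K : Type} [Field K] [NumberField K]

/-- `α_1, …, α_N` are the eigenvalues of the geometric Frobenius at the prime `v` of `K` on `H^i(X)`,
for a variety `X` of dimension `d`: there are finite multisets `β_j` of complex numbers of absolute
value `q_v^{j/2}`, `j = 0, …, 2d`, with `β_i = {α_1, …, α_N}`, such that for every finite extension
`κ` of the residue field of `v`, of degree `e`, the number of the points of `X` with coordinates in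
`κ` is `∑ (-1)^j ∑_{z ∈ β_j} z^e`.  By the theorem of Deligne such `β_j` exist at the primes of good
reduction, with `N` the `i`-th Betti number of `X`; they are unique. -/
def IsFrobenius (X : Set (MvPolynomial (Fin n) (𝓞 K))) (d i : ℕ)
    (v : HeightOneSpectrum (𝓞 K)) {N : ℕ} (α : Fin N → ℂ) : Prop :=
  ∃ β : ℕ → Multiset ℂ, β i = Finset.univ.val.map α ∧
    (∀ j, ∀ z ∈ β j, ‖z‖ = (Ideal.absNorm v.asIdeal : ℝ) ^ ((j : ℝ) / 2)) ∧
    ∀ (κ : Type) [Field κ] [Finite κ] (φ : 𝓞 K →+* κ) (e : ℕ), RingHom.ker φ = v.asIdeal →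
      Nat.card κ = Ideal.absNorm v.asIdeal ^ e →
      (cone X φ : ℂ) = ((Ideal.absNorm v.asIdeal : ℂ) ^ e - 1) *
          ∑ j ∈ Finset.range (2 * d + 1), (-1 : ℂ) ^ j * ((β j).map (fun z => z ^ e)).sum

/-- The norm `q_v`. -/
noncomputable def norm (v : HeightOneSpectrum (𝓞 K)) : ℕ := Ideal.absNorm v.asIdeal

/-- For all primes `v` outside of the finite set `S`, the `α v j` are the eigenvalues of the
Frobenius on `H^i(X)`. -/
def IsLocal (X : Set (MvPolynomial (Fin n) (𝓞 K))) (d i : ℕ) {N : ℕ}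
    (S : Finset (HeightOneSpectrum (𝓞 K))) (α : HeightOneSpectrum (𝓞 K) → Fin N → ℂ) : Prop :=
  ∀ v : HeightOneSpectrum (𝓞 K), v ∉ S → IsFrobenius X d i v (α v)

variable {N : ℕ}

/-- `F` is a continuation of the incomplete `L`-function `∏_{v ∉ S} ∏_j (1 - α_{v,j} q_v^{-s})⁻¹`
(`Re s > m + 1/2`), holomorphic for `Re s > m` and at `s = m`. -/
structure IsLSeries (m : ℕ) (S : Finset (HeightOneSpectrum (𝓞 K)))
    (α : HeightOneSpectrum (𝓞 K) → Fin N → ℂ) (F : ℂ → ℂ) : Prop where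
  diff : ∀ s : ℂ, (m : ℝ) < s.re → DifferentiableAt ℂ F s
  centre : AnalyticAt ℂ F m
  prod : ∀ s : ℂ, (m : ℝ) + 1 / 2 < s.re →
    HasProd (fun v : {v : HeightOneSpectrum (𝓞 K) // v ∉ S} =>
      (∏ j, (1 - α v.1 j * (norm v.1 : ℂ) ^ (-s)))⁻¹) (F s)

/-- `P*(y) = exp (- ∑_{v ∉ S, q_v^k ≤ y} tr (Frob_v^k) / (k q_v^{mk}))`, the (finite) sum over the pairs `(v, k)`,
`v` a prime outside of `S`, `k = p.2 + 1 ≥ 1`, with `q_v^k ≤ y`; the traces `∑_j α_{v,j}^k` are real. -/
noncomputable def productStar (m : ℕ) (S : Finset (HeightOneSpectrum (𝓞 K)))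
    (α : HeightOneSpectrum (𝓞 K) → Fin N → ℂ) (y : ℝ) : ℝ :=
  Real.exp (-∑ᶠ (p : {v : HeightOneSpectrum (𝓞 K) // v ∉ S} × ℕ)
    (_ : (norm p.1.1 : ℝ) ^ (p.2 + 1) ≤ y),
      (∑ j, α p.1.1 j ^ (p.2 + 1)).re /
        (((p.2 : ℝ) + 1) * ((norm p.1.1 : ℝ) ^ m) ^ (p.2 + 1)))

/-- `F(s) / (s - m)^r → c ≠ 0` for `s → m`: the order of `F` at `m` is `r` and `c` is the leading
coefficient. -/
def IsLeading (m : ℕ) (F : ℂ → ℂ) (r : ℕ) (c : ℂ) : Prop :=
  c ≠ 0 ∧ Tendsto (fun s : ℂ => F s / (s - m) ^ r) (𝓝[≠] (m : ℂ)) (𝓝 c)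

/-- The order of `F` at `m` is `v`, and the absolute value of the leading coefficient is a rational
multiple of `R`: parts (iii) and (iv) of the conjecture for `v = dim V^m` and
`R = |det Π · det ⟨ , ⟩|`. -/
def CentralTerm (m : ℕ) (F : ℂ → ℂ) (v : ℕ) (R : ℝ) : Prop :=
  ∃ c : ℂ, IsLeading m F v c ∧ ∃ q : ℚ, ‖c‖ = q * R

/-- For every `ε > 0` there is a `δ > 0` with `Q(y) ≤ (1 + ε) Q(x)` for all large `x` and
`x ≤ y ≤ x^(1+δ)`. -/
def SlowAbove (Q : ℝ → ℝ) : Prop :=
  ∀ ε : ℝ, 0 < ε → ∃ δ : ℝ, 0 < δ ∧ ∀ᶠ x : ℝ in atTop, ∀ y, x ≤ y → y ≤ x ^ (1 + δ) →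
    Q y ≤ (1 + ε) * Q x

/-- For every `ε > 0` there is a `δ > 0` with `Q(x) ≤ (1 + ε) Q(y)` for all large `x` and
`x ≤ y ≤ x^(1+δ)`. -/
def SlowBelow (Q : ℝ → ℝ) : Prop :=
  ∀ ε : ℝ, 0 < ε → ∃ δ : ℝ, 0 < δ ∧ ∀ᶠ x : ℝ in atTop, ∀ y, x ≤ y → y ≤ x ^ (1 + δ) →
    Q x ≤ (1 + ε) * Q y

end defs

section family

variable {ι : Type} [Fintype ι] {K : ι → Type} [∀ i, Field (K i)] [∀ i, NumberField (K i)]
  {N : ι → ℕ}

/-- `Q(x) = ∏_i P*_i(x)^(w_i)` -/
noncomputable def Q (m : ι → ℕ) (S : ∀ i, Finset (HeightOneSpectrum (𝓞 (K i))))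
    (α : ∀ i, HeightOneSpectrum (𝓞 (K i)) → Fin (N i) → ℂ) (w : ι → ℝ) (x : ℝ) : ℝ :=
  ∏ i, productStar (m i) (S i) (α i) x ^ w i

/-- `∑_i w_i ord_{s = m_i + z} F_i` -/
noncomputable def wt (m : ι → ℕ) (F : ι → ℂ → ℂ) (w : ι → ℝ) (z : ℂ) : ℝ :=
  ∑ i, w i * (analyticOrderNatAt (F i) (m i + z) : ℝ)

/-- `T = ∏_i (e^(γ r_i) / |c_i|)^(w_i)` -/
noncomputable def T (r : ι → ℕ) (c : ι → ℂ) (w : ι → ℝ) : ℝ :=
  ∏ i, (Real.exp (Real.eulerMascheroniConstant * r i) / ‖c i‖) ^ w i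

end family

/-! ### Translation to the definitions of the imported files -/

open Pool.Agent.TH942.ES (cv zv xv cP Sys)
open Pool.Agent.H921R2.TatePole (nm two_le_nm)
open Pool.Agent.TH270.MS (Mc Pl)
open Pool.Agent.Q5.VA (NS aD Frob)
open Pool.Agent.W5h26.ML (Mh)
open Pool.Agent.H21.RD Pool.Agent.H21.RE
open Pool.Agent.H21.RC (comb mult RR KK)

section translation

variable {K : Type} [Field K] [NumberField K] {n N : ℕ} {X : Set (MvPolynomial (Fin n) (𝓞 K))}
  {d m : ℕ} {S : Finset (HeightOneSpectrum (𝓞 K))} {α : HeightOneSpectrum (𝓞 K) → Fin N → ℂ}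
  {F : ℂ → ℂ}

theorem centre (hm : 1 ≤ m) : (m : ℝ) = (((2 * m - 1 : ℕ) : ℝ) + 1) / 2 := by
  rw [Nat.cast_sub (by omega)]
  push_cast
  ring

theorem frob {i : ℕ} (h : IsLocal X d i S α) : Frob X d i S α := h

theorem log_star (hm : 1 ≤ m) (y : ℝ) :
    Real.log (productStar m S α y) = -Pl (NS S) (aD (2 * m - 1) S α) y := by
  unfold productStar Pl
  rw [Real.log_exp]
  congr 1
  refine finsum_congr fun p => finsum_congr fun _ => ?_
  rw [Pool.Agent.Q5.VA.cP_D (m : ℝ) (centre hm) p, Real.rpow_natCast]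
  rfl

theorem star_pos (y : ℝ) : 0 < productStar m S α y := Real.exp_pos _

theorem mh (hm : 1 ≤ m) (hd : 2 * m - 1 ≤ 2 * d) (h : IsLocal X d (2 * m - 1) S α)
    (hF : IsLSeries m S α F) : Mh (NS S) (aD (2 * m - 1) S α) (fun s => F (m + s)) 0 := by
  have h1 := var_mh (c := m) (frob h) hd (centre hm) hF.diff
    (by simpa only [Complex.ofReal_natCast] using hF.centre)
    (fun s hs => hF.prod s hs)
  simpa only [Complex.ofReal_natCast] using h1

theorem leading_unique {F : ℂ → ℂ} {c : ℂ} {e e' : ℕ} {A A' : ℂ} (hA : A ≠ 0) (hA' : A' ≠ 0)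
    (h : Tendsto (fun s : ℂ => F s / (s - c) ^ e) (𝓝[≠] c) (𝓝 A))
    (h' : Tendsto (fun s : ℂ => F s / (s - c) ^ e') (𝓝[≠] c) (𝓝 A')) : e = e' ∧ A = A' := by
  have key : ∀ {e e' : ℕ} {A A' : ℂ}, A ≠ 0 →
      Tendsto (fun s : ℂ => F s / (s - c) ^ e) (𝓝[≠] c) (𝓝 A) →
      Tendsto (fun s : ℂ => F s / (s - c) ^ e') (𝓝[≠] c) (𝓝 A') → ¬ e < e' := by
    intro e e' A A' hA h h' hlt
    obtain ⟨k, hk⟩ : ∃ k : ℕ, e' = e + k := ⟨e' - e, by omega⟩
    have hk0 : k ≠ 0 := by omega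
    have h3 : Tendsto (fun s : ℂ => (s - c) ^ k) (𝓝[≠] c) (𝓝 0) := by
      have h4 : Tendsto (fun s : ℂ => (s - c) ^ k) (𝓝 c) (𝓝 ((c - c) ^ k)) :=
        ((continuous_id.sub continuous_const).pow k).tendsto _
      rw [sub_self, zero_pow hk0] at h4
      exact h4.mono_left nhdsWithin_le_nhds
    have h5 := h'.mul h3
    rw [mul_zero] at h5
    have h6 : Tendsto (fun s : ℂ => F s / (s - c) ^ e) (𝓝[≠] c) (𝓝 0) := by
      refine h5.congr' ?_
      filter_upwards [self_mem_nhdsWithin] with s hs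
      have hs0 : s - c ≠ 0 := sub_ne_zero.2 hs
      rw [hk, pow_add]
      field_simp
    exact hA (tendsto_nhds_unique h h6)
  have he : e = e' := by
    rcases lt_trichotomy e e' with h1 | h1 | h1
    · exact absurd h1 (key hA h h')
    · exact h1
    · exact absurd h1 (key hA' h' h)
  subst he
  exact ⟨rfl, tendsto_nhds_unique h h'⟩

/-- the leading coefficient -/
theorem exists_leading (hF : AnalyticAt ℂ F m) {r : ℕ} (h : analyticOrderAt F m = r) :
    ∃ c : ℂ, IsLeading m F r c := by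
  obtain ⟨g, hg, hg0, hg1⟩ := (hF.analyticOrderAt_eq_natCast).1 h
  refine ⟨g m, hg0, ?_⟩
  have h1 : Tendsto g (𝓝[≠] (m : ℂ)) (𝓝 (g m)) :=
    hg.continuousAt.tendsto.mono_left nhdsWithin_le_nhds
  refine h1.congr' ?_
  filter_upwards [nhdsWithin_le_nhds hg1, self_mem_nhdsWithin] with s h2 h3
  have h4 : s - m ≠ 0 := sub_ne_zero.2 h3
  rw [h2, smul_eq_mul, mul_div_cancel_left₀ _ (pow_ne_zero _ h4)]

/-- the leading coefficient along the real axis -/
theorem leading_real {r : ℕ} {c : ℂ} (h : IsLeading m F r c) :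
    Tendsto (fun x : ℝ => ‖F (m + x)‖ / x ^ r) (𝓝[>] 0) (𝓝 ‖c‖) := by
  have h1 : Tendsto (fun x : ℝ => (m : ℂ) + x) (𝓝[>] 0) (𝓝[≠] (m : ℂ)) := by
    refine tendsto_nhdsWithin_iff.2 ⟨?_, ?_⟩
    · have h2 : Tendsto (fun x : ℝ => (m : ℂ) + x) (𝓝 0) (𝓝 ((m : ℂ) + ((0 : ℝ) : ℂ))) := by
        refine Continuous.tendsto ?_ 0
        fun_prop
      rw [Complex.ofReal_zero, add_zero] at h2
      exact h2.mono_left nhdsWithin_le_nhds
    · filter_upwards [self_mem_nhdsWithin] with x hx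
      have hx0 : (0 : ℝ) < x := hx
      show (m : ℂ) + x ≠ m
      rw [Ne, add_eq_left, Complex.ofReal_eq_zero]
      exact hx0.ne'
  refine ((h.2.comp h1).norm).congr' ?_
  filter_upwards [self_mem_nhdsWithin] with x hx
  have hx0 : (0 : ℝ) < x := hx
  simp only [Function.comp_apply, add_sub_cancel_left, norm_div, norm_pow, Complex.norm_real,
    Real.norm_of_nonneg hx0.le]

end translation

section near

variable {ι : Type} {X : ι → Type} {d : ι → ℕ} {N : ∀ i, X i → ℕ}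
  {α : ∀ i, X i → Fin (d i) → ℂ} {G₀ : ι → ℂ → ℂ} {p : ι → ℕ} {a : ι → ℝ → ℝ} {c : ι → ℝ}

theorem rep_near (R : Rep N α G₀ p a c) : NearG a G₀ (fun _ _ => 0) 1 p c where
  cen := R.cen
  hloc := fun i U => by
    obtain ⟨-, C, σ, hσ, hC⟩ := R.eg i
    refine ⟨|C| * Real.exp (σ * |U|), fun u hu => (hC u).trans ?_⟩
    have h1 : Real.exp (σ * u) ≤ Real.exp (σ * |U|) :=
      Real.exp_le_exp.2 (mul_le_mul_of_nonneg_left (hu.trans (le_abs_self U)) hσ.le)
    calc C * Real.exp (σ * u) ≤ |C| * Real.exp (σ * u) :=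
          mul_le_mul_of_nonneg_right (le_abs_self C) (Real.exp_pos _).le
      _ ≤ _ := mul_le_mul_of_nonneg_left h1 (abs_nonneg _)

end near

section main

variable {ι : Type} [Fintype ι] {K : ι → Type} [∀ i, Field (K i)] [∀ i, NumberField (K i)]
  {n : ι → ℕ} {X : ∀ i, Set (MvPolynomial (Fin (n i)) (𝓞 (K i)))} {d m N : ι → ℕ}
  {S : ∀ i, Finset (HeightOneSpectrum (𝓞 (K i)))}
  {α : ∀ i, HeightOneSpectrum (𝓞 (K i)) → Fin (N i) → ℂ} {F : ι → ℂ → ℂ} {w : ι → ℝ}

theorem Q_pos (x : ℝ) : 0 < Q m S α w x :=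
  Finset.prod_pos fun _ _ => Real.rpow_pos_of_pos (star_pos x) _

theorem log_Q (hm : ∀ i, 1 ≤ m i) (x : ℝ) : Real.log (Q m S α w x) =
    ∑ i, w i * (-Pl (NS (S i)) (aD (2 * m i - 1) (S i) (α i)) x) := by
  unfold Q
  rw [Real.log_prod fun i _ => (Real.rpow_pos_of_pos (star_pos x) _).ne']
  exact Finset.sum_congr rfl fun i _ => by rw [Real.log_rpow (star_pos x), log_star (hm i)]

theorem lg (hm : ∀ i, 1 ≤ m i) {G₀ : ι → ℂ → ℂ} {p : ι → ℕ} {a : ι → ℝ → ℝ} {c : ι → ℝ}
    (R : Rep (fun i => NS (S i)) (fun i => aD (2 * m i - 1) (S i) (α i)) G₀ p a c) :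
    Lg (Q m S α w) (comb w a) 0 where
  pos := Q_pos
  log := ⟨0, fun u _ => by
    rw [log_Q hm, add_zero]
    unfold comb
    refine Finset.sum_congr rfl fun i _ => ?_
    rw [← R.pl i _ (Real.exp_pos u), Real.log_exp]⟩

theorem wt_eq (z : ℂ) : mult w (fun i s => F i (m i + s)) z = wt m F w z := by
  unfold mult wt
  exact Finset.sum_congr rfl fun i _ => by rw [nat_shiftC]

theorem T_pos {r : ι → ℕ} {c : ι → ℂ} (hc : ∀ i, c i ≠ 0) : 0 < T r c w :=
  Finset.prod_pos fun i _ => Real.rpow_pos_of_pos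
    (div_pos (Real.exp_pos _) (norm_pos_iff.2 (hc i))) _

theorem log_T {r : ι → ℕ} {c : ι → ℂ} (hc : ∀ i, c i ≠ 0) :
    Real.log (T r c w) = KK w r (fun i => ‖c i‖) + 0 + 0 := by
  have h1 : ∀ i, 0 < Real.exp (Real.eulerMascheroniConstant * r i) / ‖c i‖ := fun i =>
    div_pos (Real.exp_pos _) (norm_pos_iff.2 (hc i))
  unfold T KK
  rw [Real.log_prod fun i _ => (Real.rpow_pos_of_pos (h1 i) _).ne', add_zero, add_zero]
  refine Finset.sum_congr rfl fun i _ => ?_
  rw [Real.log_rpow (h1 i), Real.log_div (Real.exp_pos _).ne' (norm_pos_iff.2 (hc i)).ne',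
    Real.log_exp]
  ring

/-- the asymptotic formula of item 6 in the form of item 1 -/
theorem conv_E {v : ι → ℕ} {R : ι → ℝ} (hR : ∀ i, 0 < R i) {w : ι → ℤ} {q : ℚ} (hq : 0 < q)
    (h : Tendsto (fun x : ℝ => q * ∏ i, (R i * productStar (m i) (S i) (α i) x /
      (Real.exp Real.eulerMascheroniConstant * Real.log x) ^ v i) ^ w i) atTop (𝓝 1)) :
    Tendsto (fun x : ℝ => Q m S α (fun i => (w i : ℝ)) x / Real.log x ^ (∑ i, (w i : ℝ) * v i)) atTop
      (𝓝 ((q * ∏ i, (R i / Real.exp Real.eulerMascheroniConstant ^ v i) ^ w i)⁻¹)) := by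
  have hq' : (0 : ℝ) < q := by exact_mod_cast hq
  have hE : ∀ i, 0 < R i / Real.exp Real.eulerMascheroniConstant ^ v i := fun i =>
    div_pos (hR i) (pow_pos (Real.exp_pos _) _)
  have hA : 0 < (q : ℝ) * ∏ i, (R i / Real.exp Real.eulerMascheroniConstant ^ v i) ^ w i :=
    mul_pos hq' (Finset.prod_pos fun i _ => zpow_pos (hE i) _)
  have h1 := h.mul_const ((q * ∏ i, (R i / Real.exp Real.eulerMascheroniConstant ^ v i) ^ w i)⁻¹)
  rw [one_mul] at h1
  refine h1.congr' ?_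
  filter_upwards [Real.tendsto_log_atTop.eventually_gt_atTop 0] with x hx
  have e1 : ∏ i, (R i * productStar (m i) (S i) (α i) x /
      (Real.exp Real.eulerMascheroniConstant * Real.log x) ^ v i) ^ w i =
      (∏ i, (R i / Real.exp Real.eulerMascheroniConstant ^ v i) ^ w i) *
        (Q m S α (fun i => (w i : ℝ)) x / Real.log x ^ (∑ i, (w i : ℝ) * v i)) := by
    have e2 : Real.log x ^ (∑ i, (w i : ℝ) * v i) = ∏ i, (Real.log x ^ v i) ^ w i := by
      rw [Real.rpow_sum_of_pos hx]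
      refine Finset.prod_congr rfl fun i _ => ?_
      rw [mul_comm, Real.rpow_mul hx.le, Real.rpow_natCast, Real.rpow_intCast]
    have e3 : Q m S α (fun i => (w i : ℝ)) x = ∏ i, productStar (m i) (S i) (α i) x ^ w i := by
      unfold Q
      exact Finset.prod_congr rfl fun i _ => Real.rpow_intCast _ _
    rw [e2, e3, ← Finset.prod_div_distrib, ← Finset.prod_mul_distrib]
    refine Finset.prod_congr rfl fun i _ => ?_
    rw [← div_zpow, ← mul_zpow]
    congr 1
    rw [mul_pow]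
    have := pow_pos hx (v i)
    have := pow_pos (Real.exp_pos Real.eulerMascheroniConstant) (v i)
    field_simp
  rw [e1, ← mul_assoc, mul_comm, ← mul_assoc, inv_mul_cancel₀ hA.ne', one_mul]

/-- rationality of the remaining factor -/
theorem rational_last {w : ι → ℤ} {t : ι → ℝ} (ht : ∀ i, 0 < t i) {q : ℚ}
    (h : ∏ i, t i ^ w i = q) {j : ι} (hj : w j = 1 ∨ w j = -1)
    (h' : ∀ i, i ≠ j → w i ≠ 0 → ∃ q' : ℚ, t i = q') : ∃ q' : ℚ, t j = q' := by
  classical
  choose! u hu using h'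
  have h1 : ∏ i, t i ^ w i = t j ^ w j * ∏ i ∈ Finset.univ.erase j, t i ^ w i :=
    (Finset.mul_prod_erase _ _ (Finset.mem_univ j)).symm
  have h2 : ∏ i ∈ Finset.univ.erase j, t i ^ w i =
      ((∏ i ∈ Finset.univ.erase j, u i ^ w i : ℚ) : ℝ) := by
    push_cast
    refine Finset.prod_congr rfl fun i hi => ?_
    by_cases hw : w i = 0
    · rw [hw, zpow_zero, zpow_zero]
    · rw [hu i (Finset.ne_of_mem_erase hi) hw]
  have h3 : (0 : ℝ) < ((∏ i ∈ Finset.univ.erase j, u i ^ w i : ℚ) : ℝ) := by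
    rw [← h2]
    exact Finset.prod_pos fun i _ => zpow_pos (ht i) _
  rw [h1, h2] at h
  have h4 : t j ^ w j = ((q / ∏ i ∈ Finset.univ.erase j, u i ^ w i : ℚ) : ℝ) := by
    rw [Rat.cast_div, eq_div_iff h3.ne', h]
  rcases hj with h5 | h5
  · rw [h5, zpow_one] at h4
    exact ⟨_, h4⟩
  · rw [h5, zpow_neg, zpow_one] at h4
    refine ⟨(q / ∏ i ∈ Finset.univ.erase j, u i ^ w i)⁻¹, ?_⟩
    rw [Rat.cast_inv, ← h4, inv_inv]

theorem T_int {r : ι → ℕ} {c : ι → ℂ} (w : ι → ℤ) : T r c (fun i => (w i : ℝ)) =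
    ∏ i, (Real.exp Real.eulerMascheroniConstant ^ r i / ‖c i‖) ^ w i := by
  unfold T
  refine Finset.prod_congr rfl fun i _ => ?_
  rw [Real.rpow_intCast, mul_comm, Real.exp_nat_mul]

/-- **One asymptotic law for several motives.** -/
theorem result {ι : Type} [Fintype ι] (K : ι → Type) [∀ i, Field (K i)] [∀ i, NumberField (K i)]
    (n : ι → ℕ) (X : ∀ i, Set (MvPolynomial (Fin (n i)) (𝓞 (K i)))) (d m N : ι → ℕ)
    (hm : ∀ i, 1 ≤ m i) (hd : ∀ i, 2 * m i - 1 ≤ 2 * d i)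
    (S : ∀ i, Finset (HeightOneSpectrum (𝓞 (K i))))
    (α : ∀ i, HeightOneSpectrum (𝓞 (K i)) → Fin (N i) → ℂ)
    (hα : ∀ i, IsLocal (X i) (d i) (2 * m i - 1) (S i) (α i)) (F : ι → ℂ → ℂ)
    (hF : ∀ i, IsLSeries (m i) (S i) (α i) (F i)) :
    ∃ (r : ι → ℕ) (c : ι → ℂ),
      (∀ i, analyticOrderAt (F i) (m i) = r i ∧ IsLeading (m i) (F i) (r i) (c i)) ∧
      -- laws for arbitrary real weights
      (∀ w : ι → ℝ,
        (∀ κ C : ℝ, C ≠ 0 → Tendsto (fun x : ℝ => Q m S α w x / Real.log x ^ κ) atTop (𝓝 C) →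
          κ = ∑ i, w i * r i ∧ C = T r c w ∧ ∀ z : ℂ, 0 < z.re → wt m F w z = 0) ∧
        List.TFAE [
          ∃ C κ : ℝ, C ≠ 0 ∧ Tendsto (fun x : ℝ => Q m S α w x / Real.log x ^ κ) atTop (𝓝 C),
          Tendsto (fun x : ℝ => Q m S α w x / Real.log x ^ (∑ i, w i * r i)) atTop (𝓝 (T r c w)),
          (∀ x : ℝ, 0 < x → 0 ≤ wt m F w x) ∧ SlowAbove (Q m S α w),
          (∀ x : ℝ, 0 < x → wt m F w x ≤ 0) ∧ SlowBelow (Q m S α w)] ∧
        List.TFAE [
          ∃ κ A B : ℝ, 0 < A ∧ ∀ᶠ x : ℝ in atTop,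
            A * Real.log x ^ κ ≤ Q m S α w x ∧ Q m S α w x ≤ B * Real.log x ^ κ,
          ∃ A B : ℝ, 0 < A ∧ ∀ᶠ x : ℝ in atTop, A * Real.log x ^ (∑ i, w i * r i) ≤ Q m S α w x ∧
            Q m S α w x ≤ B * Real.log x ^ (∑ i, w i * r i),
          (∀ x : ℝ, 0 < x → 0 ≤ wt m F w x) ∧ ∃ B : ℝ, ∀ᶠ x : ℝ in atTop, ∀ y, x ≤ y →
            y ≤ x ^ 2 → Q m S α w y ≤ B * Q m S α w x,
          (∀ x : ℝ, 0 < x → wt m F w x ≤ 0) ∧ ∃ B : ℝ, ∀ᶠ x : ℝ in atTop, ∀ y, x ≤ y →
            y ≤ x ^ 2 → Q m S α w x ≤ B * Q m S α w y] ∧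
        ((∀ x : ℝ, 0 < x → 0 ≤ wt m F w x) → ∀ κ C : ℝ,
          (∀ᶠ x : ℝ in atTop, Q m S α w x ≤ C * Real.log x ^ κ) →
          (∀ z : ℂ, 0 < z.re → wt m F w z = 0) ∧ ∑ i, w i * r i ≤ κ ∧
            (∑ i, w i * r i = κ → T r c w ≤ C)) ∧
        (LinearIndependent ℚ w → ∀ v : ι → ℕ, (∃ C : ℝ, C ≠ 0 ∧
            Tendsto (fun x : ℝ => Q m S α w x / Real.log x ^ (∑ i, w i * v i)) atTop (𝓝 C)) →
          ∀ i, analyticOrderAt (F i) (m i) = v i ∧ ∀ s : ℂ, (m i : ℝ) < s.re → F i s ≠ 0)) ∧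
      -- integral weights and the conjecture of Beilinson
      (∀ (v : ι → ℕ) (R : ι → ℝ), (∀ i, 0 < R i) → ∀ (w : ι → ℤ) (q : ℚ), 0 < q →
        Tendsto (fun x : ℝ => q * ∏ i, (R i * productStar (m i) (S i) (α i) x /
          (Real.exp Real.eulerMascheroniConstant * Real.log x) ^ v i) ^ w i) atTop (𝓝 1) →
        ∑ i, w i * (r i : ℤ) = ∑ i, w i * (v i : ℤ) ∧ ∏ i, (‖c i‖ / R i) ^ w i = q ∧
        (∀ z : ℂ, 0 < z.re → ∑ i, w i * (analyticOrderNatAt (F i) (m i + z) : ℤ) = 0) ∧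
        ∀ j, (w j = 1 ∨ w j = -1) →
          (∀ i, i ≠ j → w i ≠ 0 → CentralTerm (m i) (F i) (v i) (R i)) →
          CentralTerm (m j) (F j) (v j) (R j)) ∧
      -- two varieties
      ∀ i j : ι, i ≠ j → ∀ (v v' : ℕ) (R R' : ℝ), 0 < R → 0 < R' → ∀ q : ℚ, 0 < q →
        Tendsto (fun x : ℝ => q * ((R * productStar (m i) (S i) (α i) x /
            (Real.exp Real.eulerMascheroniConstant * Real.log x) ^ v) /
          (R' * productStar (m j) (S j) (α j) x /
            (Real.exp Real.eulerMascheroniConstant * Real.log x) ^ v'))) atTop (𝓝 1) →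
        (CentralTerm (m i) (F i) v R ↔ CentralTerm (m j) (F j) v' R') ∧
        ∀ z : ℂ, 0 < z.re →
          analyticOrderNatAt (F i) (m i + z) = analyticOrderNatAt (F j) (m j + z) := by
  classical
  have H : ∀ i, Mh (NS (S i)) (aD (2 * m i - 1) (S i) (α i)) (fun s => F i (m i + s)) 0 := fun i =>
    mh (hm i) (hd i) (hα i) (hF i)
  choose e g' r he hr Qd using fun i => (H i).hy
  have hr' : ∀ i, analyticOrderAt (F i) (m i) = r i := fun i =>
    (order_shiftC (hF i).centre (r i)).1 (hr i)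
  choose c hc using fun i => exists_leading (hF i).centre (hr' i)
  have hc0 : ∀ i, c i ≠ 0 := fun i => (hc i).1
  obtain ⟨a, c', Rp⟩ := exists_rep H hr
  have hcc : c' = fun i => ‖c i‖ := by
    funext i
    exact tendsto_nhds_unique (Rp.cen.lim i) (leading_real (hc i))
  subst hcc
  have HN := rep_near Rp
  have zeros : ∀ w : ι → ℝ, (∀ s : ℂ, 0 < s.re → mult w (fun i s => F i (m i + s)) s = 0) →
      ∀ z : ℂ, 0 < z.re → wt m F w z = 0 := fun w h z hz => by rw [← wt_eq]; exact h z hz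
  have uniq : ∀ (w : ι → ℝ) (κ C : ℝ), C ≠ 0 →
      Tendsto (fun x : ℝ => Q m S α w x / Real.log x ^ κ) atTop (𝓝 C) →
      κ = ∑ i, w i * r i ∧ C = T r c w ∧ ∀ z : ℂ, 0 < z.re → wt m F w z = 0 := by
    intro w κ C hC h
    obtain ⟨h1, h2, h3⟩ := HN.unique cor_zero comb_zero_lim (lg hm Rp) (T_pos hc0) (log_T hc0) hC h
    exact ⟨h1, h2, zeros w h3⟩
  have core : ∀ (v : ι → ℕ) (R : ι → ℝ), (∀ i, 0 < R i) → ∀ (w : ι → ℤ) (q : ℚ), 0 < q →
        Tendsto (fun x : ℝ => q * ∏ i, (R i * productStar (m i) (S i) (α i) x /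
          (Real.exp Real.eulerMascheroniConstant * Real.log x) ^ v i) ^ w i) atTop (𝓝 1) →
        ∑ i, w i * (r i : ℤ) = ∑ i, w i * (v i : ℤ) ∧ ∏ i, (‖c i‖ / R i) ^ w i = q ∧
        (∀ z : ℂ, 0 < z.re → ∑ i, w i * (analyticOrderNatAt (F i) (m i + z) : ℤ) = 0) ∧
        ∀ j, (w j = 1 ∨ w j = -1) →
          (∀ i, i ≠ j → w i ≠ 0 → CentralTerm (m i) (F i) (v i) (R i)) →
          CentralTerm (m j) (F j) (v j) (R j) := by
    intro v R hR w q hq h
    have hq' : (0 : ℝ) < q := by exact_mod_cast hq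
    have hE : ∀ i, 0 < R i / Real.exp Real.eulerMascheroniConstant ^ v i := fun i =>
      div_pos (hR i) (pow_pos (Real.exp_pos _) _)
    have hA : 0 < (q : ℝ) * ∏ i, (R i / Real.exp Real.eulerMascheroniConstant ^ v i) ^ w i :=
      mul_pos hq' (Finset.prod_pos fun i _ => zpow_pos (hE i) _)
    obtain ⟨h1, h2, h3⟩ := uniq _ _ _ (inv_pos.2 hA).ne' (conv_E hR hq h)
    have h4 : ∑ i, w i * (r i : ℤ) = ∑ i, w i * (v i : ℤ) := by exact_mod_cast h1.symm
    have h5 : ∏ i, (‖c i‖ / R i) ^ w i = q := by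
      rw [T_int, inv_eq_iff_eq_inv, ← Finset.prod_inv_distrib] at h2
      have e1 : ∏ i, ((Real.exp Real.eulerMascheroniConstant ^ r i / ‖c i‖) ^ w i)⁻¹ =
          (∏ i, (‖c i‖ / R i) ^ w i) *
            ∏ i, (R i / Real.exp Real.eulerMascheroniConstant ^ r i) ^ w i := by
        rw [← Finset.prod_mul_distrib]
        refine Finset.prod_congr rfl fun i _ => ?_
        rw [← mul_zpow, ← inv_zpow, inv_div]
        congr 1
        have := (hR i).ne'
        field_simp
      have e2 : ∀ u : ι → ℕ, ∏ i, (R i / Real.exp Real.eulerMascheroniConstant ^ u i) ^ w i =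
          (∏ i, R i ^ w i) / Real.exp Real.eulerMascheroniConstant ^ (∑ i, w i * (u i : ℤ)) := by
        intro u
        have e3 : Real.exp Real.eulerMascheroniConstant ^ (∑ i, w i * (u i : ℤ)) =
            ∏ i, (Real.exp Real.eulerMascheroniConstant ^ u i) ^ w i := by
          have e4 : ∀ s : Finset ι,
              Real.exp Real.eulerMascheroniConstant ^ (∑ i ∈ s, w i * (u i : ℤ)) =
              ∏ i ∈ s, (Real.exp Real.eulerMascheroniConstant ^ u i) ^ w i := by
            intro s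
            induction s using Finset.induction_on with
            | empty => simp
            | insert i s hi ih =>
              rw [Finset.sum_insert hi, Finset.prod_insert hi, zpow_add₀ (Real.exp_pos _).ne', ih,
                mul_comm (w i), zpow_mul, zpow_natCast]
          exact e4 Finset.univ
        rw [e3, ← Finset.prod_div_distrib]
        exact Finset.prod_congr rfl fun i _ => div_zpow _ _ _
      rw [e1, e2, e2, h4] at h2
      have h6 : 0 < (∏ i, R i ^ w i) /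
          Real.exp Real.eulerMascheroniConstant ^ (∑ i, w i * (v i : ℤ)) :=
        div_pos (Finset.prod_pos fun i _ => zpow_pos (hR i) _) (zpow_pos (Real.exp_pos _) _)
      exact (mul_right_cancel₀ h6.ne' h2).symm
    refine ⟨h4, h5, fun z hz => ?_, fun j hj hB => ?_⟩
    · have := h3 z hz
      unfold wt at this
      simp only at this
      exact_mod_cast this
    · have hv : ∀ i, i ≠ j → w i ≠ 0 → r i = v i ∧ ∃ q' : ℚ, ‖c i‖ / R i = q' := by
        intro i hi hwi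
        obtain ⟨c1, hc1, q', hq'⟩ := hB i hi hwi
        obtain ⟨e1, e2⟩ := leading_unique (hc0 i) hc1.1 (hc i).2 hc1.2
        refine ⟨e1, q', ?_⟩
        rw [e2, hq', mul_div_assoc, div_self (hR i).ne', mul_one]
      have hvj : r j = v j := by
        have e1 : ∑ i, w i * ((r i : ℤ) - v i) = 0 := by
          simp only [mul_sub, Finset.sum_sub_distrib, h4, sub_self]
        rw [Finset.sum_eq_single j (fun i _ hi => by
            by_cases hwi : w i = 0
            · rw [hwi, zero_mul]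
            · rw [(hv i hi hwi).1, sub_self, mul_zero])
          (fun h => absurd (Finset.mem_univ j) h)] at e1
        rcases hj with h6 | h6 <;> rw [h6] at e1 <;> omega
      obtain ⟨q', hq'⟩ := rational_last (fun i => div_pos (norm_pos_iff.2 (hc0 i)) (hR i)) h5 hj
        fun i hi hwi => (hv i hi hwi).2
      refine ⟨c j, by rw [← hvj]; exact hc j, q', ?_⟩
      rwa [div_eq_iff (hR j).ne'] at hq'
  refine ⟨r, c, fun i => ⟨hr' i, hc i⟩, fun w => ⟨uniq w, ?_, ?_, ?_, ?_⟩, core, ?_⟩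
  · have h := HN.lead (w := w) cor_zero comb_zero_lim (lg hm Rp) (T_pos hc0) (log_T hc0)
    simp only [wt_eq] at h
    exact_mod_cast h
  · have h := HN.order (w := w) (lg hm Rp)
    simp only [wt_eq] at h
    exact_mod_cast h
  · intro hs κ C h
    obtain ⟨h1, h2, h3⟩ := HN.upper (w := w) (lg hm Rp) (fun x hx => by
      rw [wt_eq]
      exact hs x hx) h
    exact ⟨zeros w h1, h2, fun h4 => h3 cor_zero comb_zero_lim (T_pos hc0) (log_T hc0) h4⟩
  · rintro hw v ⟨C, hC, h⟩ i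
    obtain ⟨h1, -, h3⟩ := uniq w _ _ hC h
    have h4 : v = r := indep_nat hw h1
    refine ⟨by rw [hr' i, h4], fun s hs => ?_⟩
    have h5 : 0 < (s - m i).re := by
      rw [Complex.sub_re, Complex.natCast_re]
      linarith
    have h6 := indep_sys H hr hw h5 (by rw [wt_eq]; exact h3 _ h5) i
    simpa only [add_sub_cancel] using h6
  · intro i j hij v v' R R' hR hR' q hq h
    set w : ι → ℤ := fun k => (if k = i then 1 else 0) - (if k = j then 1 else 0) with hw
    have hwi : w i = 1 := by simp [hw, hij]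
    have hwj : w j = -1 := by simp [hw, hij.symm]
    have hw0 : ∀ k, k ≠ i → k ≠ j → w k = 0 := fun k h1 h2 => by simp [hw, h1, h2]
    have hprod : ∀ g : ι → ℝ, ∏ k, g k ^ w k = g i / g j := by
      intro g
      rw [← Finset.mul_prod_erase _ _ (Finset.mem_univ i),
        ← Finset.mul_prod_erase _ _ (Finset.mem_erase.2 ⟨hij.symm, Finset.mem_univ j⟩), hwi, hwj,
        zpow_one, zpow_neg, zpow_one, Finset.prod_eq_one, mul_one, div_eq_mul_inv]
      intro k hk
      rw [Finset.mem_erase, Finset.mem_erase] at hk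
      rw [hw0 k hk.2.1 hk.1, zpow_zero]
    have h1 := core (fun k => if k = i then v else v') (fun k => if k = i then R else R')
      (fun k => by by_cases hk : k = i <;> simp [hk, hR, hR']) w q hq (by
        simp only [hprod, if_true, hij.symm, if_false]
        exact h)
    obtain ⟨-, -, h2, h3⟩ := h1
    refine ⟨⟨fun hB => ?_, fun hB => ?_⟩, fun z hz => ?_⟩
    · have h4 := h3 j (Or.inr hwj) fun k hk hwk => by
        have hki : k = i := by
          by_contra hki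
          exact hwk (hw0 k hki hk)
        subst hki
        simpa using hB
      simpa [hij.symm] using h4
    · have h4 := h3 i (Or.inl hwi) fun k hk hwk => by
        have hki : k = j := by
          by_contra hkj
          exact hwk (hw0 k hk hkj)
        subst hki
        simpa [hij.symm] using hB
      simpa using h4
    · have h4 := h2 z hz
      have h5 : ∑ k, w k * (analyticOrderNatAt (F k) (m k + z) : ℤ) =
          analyticOrderNatAt (F i) (m i + z) - analyticOrderNatAt (F j) (m j + z) := by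
        simp only [hw, sub_mul, ite_mul, one_mul, zero_mul, Finset.sum_sub_distrib,
          Finset.sum_ite_eq', Finset.mem_univ, if_true]
      rw [h5] at h4
      omega

end main

end Pool.Agent.Results.MP_29b22a_nt.SeveralMotives
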